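import Pool.Agent.W795.TQ.DStm
import Pool.Agent.H772R2.NSG.Cross

/-! TQD-EST2: the differentiated equation tested with `(t - t0) ∂ₜu`. -/

set_option autoImplicit false
set_option linter.unusedSectionVars false

open MeasureTheory Set Filter Topology Metric
open scoped InnerProductSpace NNReal ENNReal

namespace Pool.Agent.W790.TQ

open Pool.Agent.W795.TQ
open H772R2.NSR (Frame prim_cont memLp_ii ae_deriv_of_prim prim_shift)
open H772R2.NSG (St by_parts ii_of_int int_inner)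

/-! ## Real analysis -/

/-- Fatou -/
theorem fatou {μ : Measure ℝ} {f : ℕ → ℝ → ℝ} {g : ℝ → ℝ} (hf0 : ∀ n, ∀ᵐ s ∂μ, 0 ≤ f n s)
    (hfi : ∀ n, Integrable (f n) μ)
    (hlim : ∀ᵐ s ∂μ, Tendsto (fun n => f n s) atTop (𝓝 (g s))) (hg : Integrable g μ)
    {B : ℕ → ℝ} {b : ℝ} (hB : ∀ n, ∫ s, f n s ∂μ ≤ B n) (hb : Tendsto B atTop (𝓝 b)) :
    ∫ s, g s ∂μ ≤ b := by
  have hg0 : ∀ᵐ s ∂μ, 0 ≤ g s := by
    filter_upwards [hlim, ae_all_iff.2 hf0] with s hs hs0
    exact ge_of_tendsto' hs hs0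
  have hB0 : ∀ n, 0 ≤ B n := fun n => (integral_nonneg_of_ae (hf0 n)).trans (hB n)
  have hb0 : 0 ≤ b := ge_of_tendsto' hb hB0
  have h1 : ENNReal.ofReal (∫ s, g s ∂μ) = ∫⁻ s, ENNReal.ofReal (g s) ∂μ :=
    ofReal_integral_eq_lintegral_ofReal hg hg0
  have h2 : ∫⁻ s, ENNReal.ofReal (g s) ∂μ =
      ∫⁻ s, liminf (fun n => ENNReal.ofReal (f n s)) atTop ∂μ := by
    refine lintegral_congr_ae ?_
    filter_upwards [hlim] with s hs
    exact ((ENNReal.continuous_ofReal.tendsto _).comp hs).liminf_eq.symm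
  have h3 : ∫⁻ s, liminf (fun n => ENNReal.ofReal (f n s)) atTop ∂μ ≤
      liminf (fun n => ∫⁻ s, ENNReal.ofReal (f n s) ∂μ) atTop :=
    lintegral_liminf_le' fun n => (hfi n).aestronglyMeasurable.aemeasurable.ennreal_ofReal
  have h4 : ∀ n, ∫⁻ s, ENNReal.ofReal (f n s) ∂μ ≤ ENNReal.ofReal (B n) := by
    intro n
    rw [← ofReal_integral_eq_lintegral_ofReal (hfi n) (hf0 n)]
    exact ENNReal.ofReal_le_ofReal (hB n)
  have h5 : liminf (fun n => ∫⁻ s, ENNReal.ofReal (f n s) ∂μ) atTop ≤ ENNReal.ofReal b := by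
    rw [← ((ENNReal.continuous_ofReal.tendsto _).comp hb).liminf_eq]
    exact liminf_le_liminf (Eventually.of_forall h4)
  have h6 : ENNReal.ofReal (∫ s, g s ∂μ) ≤ ENNReal.ofReal b := by
    rw [h1, h2]; exact h3.trans h5
  exact (ENNReal.ofReal_le_ofReal_iff hb0).1 h6

/-- integrating over the left end point -/
theorem dbl {T : ℝ} {g : ℝ → ℝ} (hg : Integrable g (volume.restrict (Ioc 0 T))) {t0 t : ℝ}
    (h0 : 0 ≤ t0) (ht : t0 ≤ t) (htT : t ≤ T) :
    ∫ r in t0..t, (∫ s in r..t, g s) = ∫ s in t0..t, (s - t0) * g s := by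
  have hc : ContinuousOn (fun s : ℝ => s - t0) (Icc 0 T) := by fun_prop
  have h1 : Integrable (fun _ : ℝ => (1 : ℝ)) (volume.restrict (Ioc 0 T)) := integrable_const _
  have hp : ∀ a b : ℝ, 0 ≤ a → a ≤ b → b ≤ T → (b - t0) - (a - t0) = ∫ s in a..b, (1 : ℝ) := by
    intro a b _ _ _
    simp
  have e1 := by_parts hg h1 hp hc (t := t) ⟨h0.trans ht, htT⟩
  have e2 := by_parts hg h1 hp hc (t := t0) ⟨h0, ht.trans htT⟩
  have hin : ∀ a b : ℝ, ⟪a, b⟫_ℝ = b * a := fun a b => by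
    simp [RCLike.inner_apply]
  simp only [hin, sub_self, zero_mul, intervalIntegral.integral_zero, one_mul] at e1 e2
  have hii : ∀ a b : ℝ, 0 ≤ a → a ≤ b → b ≤ T → IntervalIntegrable g volume a b :=
    fun a b ha hab hb => ii_of_int hg ha hab hb
  have hgt : ∀ r ∈ Icc t0 t, ∫ s in r..t, g s = (∫ s in (0 : ℝ)..t, g s) - ∫ s in (0 : ℝ)..r, g s := by
    intro r hr
    have := intervalIntegral.integral_add_adjacent_intervals (hii 0 r le_rfl (h0.trans hr.1)
      (hr.2.trans htT)) (hii r t (h0.trans hr.1) hr.2 htT)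
    linarith
  have hPc : ContinuousOn (fun r => ∫ s in (0 : ℝ)..r, g s) (Icc 0 T) := by
    have hi : IntegrableOn g (uIcc 0 T) volume := by
      rw [uIcc_of_le (h0.trans (ht.trans htT)), integrableOn_Icc_iff_integrableOn_Ioc]
      exact hg
    have := intervalIntegral.continuousOn_primitive_interval hi
    rwa [uIcc_of_le (h0.trans (ht.trans htT))] at this
  have hPi : ∀ a b : ℝ, 0 ≤ a → a ≤ b → b ≤ T →
      IntervalIntegrable (fun r => ∫ s in (0 : ℝ)..r, g s) volume a b := by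
    intro a b ha hab hb
    apply ContinuousOn.intervalIntegrable
    rw [uIcc_of_le hab]
    exact hPc.mono (Icc_subset_Icc ha hb)
  have hwi : ∀ a b : ℝ, 0 ≤ a → a ≤ b → b ≤ T →
      IntervalIntegrable (fun s => (s - t0) * g s) volume a b := by
    intro a b ha hab hb
    exact (hii a b ha hab hb).continuousOn_mul (by fun_prop)
  have e3 := intervalIntegral.integral_add_adjacent_intervals (hPi 0 t0 le_rfl h0 (ht.trans htT))
    (hPi t0 t h0 ht htT)
  have e4 := intervalIntegral.integral_add_adjacent_intervals (hwi 0 t0 le_rfl h0 (ht.trans htT))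
    (hwi t0 t h0 ht htT)
  rw [intervalIntegral.integral_const_mul] at e1
  have e5 : ∫ r in t0..t, (∫ s in r..t, g s) =
      ∫ r in t0..t, ((∫ s in (0 : ℝ)..t, g s) - ∫ s in (0 : ℝ)..r, g s) := by
    refine intervalIntegral.integral_congr fun r hr => ?_
    rw [uIcc_of_le ht] at hr
    exact hgt r hr
  rw [e5, intervalIntegral.integral_sub intervalIntegrable_const (hPi t0 t h0 ht htT),
    intervalIntegral.integral_const, smul_eq_mul]
  linarith

/-- the shift of a function with a derivative in `L²` -/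
theorem prim_shift' {Y : Type} [NormedAddCommGroup Y] [InnerProductSpace ℝ Y] [CompleteSpace Y]
    {T : ℝ} {F F1 : ℝ → Y} (hF1 : MemLp F1 2 (volume.restrict (Ioc 0 T)))
    (hF : ∀ a b, 0 ≤ a → a ≤ b → b ≤ T → F b - F a = ∫ s in a..b, F1 s)
    {r t h : ℝ} (hr : 0 ≤ r) (hrt : r < t) (hh : 0 < h) (hth : t + h ≤ T) :
    ∫ s in r..t, ‖F (s + h) - F s‖ ^ 2 ≤ (∫ s in r..(t + h), ‖F1 s‖ ^ 2) * h ^ 2 := by
  have h1 : MemLp (fun s => F1 (s + r)) 2 (volume.restrict (Ioc 0 (t + h - r))) := by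
    have hmp : MeasurePreserving (fun s : ℝ => s + r) (volume.restrict (Ioc 0 (t + h - r)))
        (volume.restrict (Ioc r (t + h))) := by
      have := (measurePreserving_add_right volume r).restrict_preimage
        (measurableSet_Ioc : MeasurableSet (Ioc r (t + h)))
      rwa [preimage_add_const_Ioc, sub_self] at this
    exact (hF1.mono_measure (Measure.restrict_mono (Ioc_subset_Ioc hr hth) le_rfl)).comp_measurePreserving
      hmp
  have h2 := prim_shift h1 (F := fun s => F (s + r)) (fun a b ha hab hb => by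
    rw [intervalIntegral.integral_comp_add_right (fun s => F1 s)]
    exact hF _ _ (by linarith) (by linarith) (by linarith)) h hh (by linarith)
  rw [show t + h - r - h = t - r by ring] at h2
  rw [intervalIntegral.integral_comp_add_right (fun s => ‖F1 s‖ ^ 2)] at h2
  have h3 : ∫ s in (0 : ℝ)..(t - r), ‖F (s + h + r) - F (s + r)‖ ^ 2 =
      ∫ s in r..t, ‖F (s + h) - F s‖ ^ 2 := by
    have : ∀ s, ‖F (s + h + r) - F (s + r)‖ ^ 2 = (fun s => ‖F (s + h) - F s‖ ^ 2) (s + r) := by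
      intro s
      simp only
      rw [show s + h + r = s + r + h by ring]
    rw [intervalIntegral.integral_congr fun s _ => this s,
      intervalIntegral.integral_comp_add_right (fun s => ‖F (s + h) - F s‖ ^ 2)]
    simp
  rw [h3] at h2
  simpa using h2

/-- the product rule for the square of a primitive -/
theorem sq_prim {Y : Type} [NormedAddCommGroup Y] [InnerProductSpace ℝ Y] [CompleteSpace Y]
    {T : ℝ} {g g1 : ℝ → Y} (h1 : MemLp g1 2 (volume.restrict (Ioc 0 T)))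
    (hg : ∀ a b, 0 ≤ a → a ≤ b → b ≤ T → g b - g a = ∫ s in a..b, g1 s)
    {a b : ℝ} (ha : 0 ≤ a) (hab : a ≤ b) (hb : b ≤ T) :
    ‖g b‖ ^ 2 - ‖g a‖ ^ 2 = ∫ s in a..b, 2 * ⟪g1 s, g s⟫_ℝ := by
  have hi : Integrable g1 (volume.restrict (Ioc 0 T)) := h1.integrable (by norm_num)
  have hc := prim_cont h1 hg
  have key : ∀ t ∈ Icc 0 T, ‖g t‖ ^ 2 - ‖g 0‖ ^ 2 = ∫ s in (0 : ℝ)..t, 2 * ⟪g1 s, g s⟫_ℝ := by
    intro t ht
    have e1 := by_parts hi hi hg hc ht
    have e2 : ∫ s in (0 : ℝ)..t, ⟪g1 s, g t⟫_ℝ = ⟪g t - g 0, g t⟫_ℝ := by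
      rw [hg 0 t le_rfl ht.1 ht.2, intervalIntegral.integral_of_le ht.1,
        intervalIntegral.integral_of_le ht.1, real_inner_comm]
      have := integral_inner (𝕜 := ℝ) (hi.mono_measure
        (Measure.restrict_mono (Ioc_subset_Ioc_right ht.2) le_rfl)) (g t)
      rw [← this]
      exact integral_congr_ae (Eventually.of_forall fun s => real_inner_comm _ _)
    have hin : IntervalIntegrable (fun s => ⟪g1 s, g s⟫_ℝ) volume 0 t :=
      ii_of_int (T := T) (int_inner h1 (by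
        obtain ⟨B, hB⟩ := (isCompact_Icc.image_of_continuousOn hc).isBounded.exists_norm_le
        refine MemLp.of_bound ((hc.mono Ioc_subset_Icc_self).aestronglyMeasurable
          measurableSet_Ioc) B ?_
        filter_upwards [ae_restrict_mem measurableSet_Ioc] with s hs
        exact hB _ ⟨s, Ioc_subset_Icc_self hs, rfl⟩)) le_rfl ht.1 ht.2
    have hi0 : IntervalIntegrable g1 volume 0 t := ii_of_int hi le_rfl ht.1 ht.2
    have e3 : ∫ r in (0 : ℝ)..t, ⟪∫ s in (0 : ℝ)..r, g1 s, g1 r⟫_ℝ =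
        (∫ s in (0 : ℝ)..t, ⟪g1 s, g s⟫_ℝ) - ⟪g 0, g t - g 0⟫_ℝ := by
      have e4 : ∫ r in (0 : ℝ)..t, ⟪∫ s in (0 : ℝ)..r, g1 s, g1 r⟫_ℝ =
          ∫ r in (0 : ℝ)..t, (⟪g1 r, g r⟫_ℝ - ⟪g 0, g1 r⟫_ℝ) := by
        refine intervalIntegral.integral_congr fun r hr => ?_
        rw [uIcc_of_le ht.1] at hr
        rw [← hg 0 r le_rfl hr.1 (hr.2.trans ht.2), inner_sub_left, real_inner_comm (g r)]
      have e5 : ∫ r in (0 : ℝ)..t, ⟪g 0, g1 r⟫_ℝ = ⟪g 0, g t - g 0⟫_ℝ := by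
        rw [hg 0 t le_rfl ht.1 ht.2, intervalIntegral.integral_of_le ht.1,
          intervalIntegral.integral_of_le ht.1]
        exact integral_inner (𝕜 := ℝ) (hi.mono_measure
          (Measure.restrict_mono (Ioc_subset_Ioc_right ht.2) le_rfl)) (g 0)
      rw [e4, intervalIntegral.integral_sub hin, e5]
      rw [intervalIntegrable_iff_integrableOn_Ioc_of_le ht.1]
      exact (hi.mono_measure (Measure.restrict_mono (Ioc_subset_Ioc_right ht.2) le_rfl)).const_inner _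
    rw [e2, e3] at e1
    rw [intervalIntegral.integral_const_mul]
    rw [inner_sub_left, inner_sub_right, real_inner_self_eq_norm_sq, real_inner_self_eq_norm_sq]
      at e1
    linarith
  have k1 := key a ⟨ha, hab.trans hb⟩
  have k2 := key b ⟨ha.trans hab, hb⟩
  have hin : ∀ x y : ℝ, 0 ≤ x → x ≤ y → y ≤ T →
      IntervalIntegrable (fun s => 2 * ⟪g1 s, g s⟫_ℝ) volume x y := by
    intro x y hx hxy hy
    refine (ii_of_int (T := T) (int_inner h1 (by
        obtain ⟨B, hB⟩ := (isCompact_Icc.image_of_continuousOn hc).isBounded.exists_norm_le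
        refine MemLp.of_bound ((hc.mono Ioc_subset_Icc_self).aestronglyMeasurable
          measurableSet_Ioc) B ?_
        filter_upwards [ae_restrict_mem measurableSet_Ioc] with s hs
        exact hB _ ⟨s, Ioc_subset_Icc_self hs, rfl⟩)) hx hxy hy).const_mul 2
  have k3 := intervalIntegral.integral_add_adjacent_intervals (hin 0 a le_rfl ha (hab.trans hb))
    (hin a b ha hab hb)
  linarith

/-- Young's inequality -/
theorem young (ν c a b y e x : ℝ) (hν : 0 < ν) (hc : 0 ≤ c) (ha : 0 ≤ a) (hb : 0 ≤ b) (hy : 0 ≤ y)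
    (I : ℝ) (hI : |I| ≤ c * (a * b ^ 3) * y) (hx : |x| ≤ e * b ^ 2) :
    2 * (x - ν * (b ^ 2) ^ 2 - I) + ν * (b ^ 2) ^ 2 ≤
      2 / ν * e ^ 2 + 14 * c ^ 4 / ν ^ 3 * ((a ^ 2) ^ 2 * y ^ 4) := by
  set k : ℝ := c * a * y / ν with hk
  have hk0 : 0 ≤ k := by positivity
  have h1 : 0 ≤ (b - 3 * k) ^ 2 * (b ^ 2 / 2 + k * b + 3 * k ^ 2 / 2) := by positivity
  have h2 : 2 * k * b ^ 3 ≤ b ^ 4 / 2 + 14 * k ^ 4 := by nlinarith [pow_nonneg hk0 4]
  have h3 : 2 * (c * (a * b ^ 3) * y) ≤ ν / 2 * b ^ 4 +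
      14 * c ^ 4 / ν ^ 3 * ((a ^ 2) ^ 2 * y ^ 4) := by
    have e1 : 2 * (c * (a * b ^ 3) * y) = ν * (2 * k * b ^ 3) := by rw [hk]; field_simp
    have e2 : ν / 2 * b ^ 4 + 14 * c ^ 4 / ν ^ 3 * ((a ^ 2) ^ 2 * y ^ 4) =
        ν * (b ^ 4 / 2 + 14 * k ^ 4) := by rw [hk]; field_simp
    rw [e1, e2]
    exact mul_le_mul_of_nonneg_left h2 hν.le
  have h4 : 2 * (e * b ^ 2) ≤ ν / 2 * b ^ 4 + 2 / ν * e ^ 2 := by
    have e1 : ν / 2 * b ^ 4 + 2 / ν * e ^ 2 - 2 * (e * b ^ 2) = ν / 2 * (b ^ 2 - 2 / ν * e) ^ 2 := by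
      field_simp; ring
    have : 0 ≤ ν / 2 * (b ^ 2 - 2 / ν * e) ^ 2 := by positivity
    linarith
  have h5 := (abs_le.1 hI).1
  have h6 := (abs_le.1 hx).2
  nlinarith

/-! ## The equation -/

section eqn

variable {H K : Type} [NormedAddCommGroup H] [InnerProductSpace ℝ H] [CompleteSpace H]
  [NormedAddCommGroup K] [InnerProductSpace ℝ K] [CompleteSpace K]
  {W : Submodule ℝ (H × K)} {m : H → K} {C c ν T : ℝ} {F F1 : ℝ → K} {u u1 : ℝ → H}
  {z z1 : ℝ → K}

theorem toSt (hF : FH T F F1) (S : Str W m ν T F u u1 z z1) :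
    ∃ Z, St W m T (fun _ => ν) F (u 0) u z u1 z1 Z := by
  have hzc : ContinuousOn z (Icc 0 T) := prim_cont S.z1m S.pz
  obtain ⟨Z, hZ⟩ := (isCompact_Icc.image_of_continuousOn hzc).isBounded.exists_norm_le
  refine ⟨Z, rfl, S.mem, S.u1m, S.z1m, S.pu, S.pz, S.mem1, continuousOn_const,
    prim_cont hF.memLp hF.prim, S.weak, fun t ht => ?_, fun t ht => hZ _ ⟨t, ht, rfl⟩⟩
  rw [intervalIntegral.integral_const_mul]
  exact S.energy t ht

/-- the pointwise inequality for the differences -/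
theorem pt_ineq (Fr : Frame W m C) (U : Univ W m c) (hν : 0 < ν) (hT : 0 < T) (hF : FH T F F1)
    (S : Str W m ν T F u u1 z z1) {h : ℝ} (hh : 0 < h) :
    ∀ᵐ s ∂(volume.restrict (Ioc 0 (T - h))),
      2 * ⟪u1 (s + h) - u1 s, u (s + h) - u s⟫_ℝ + ν * ‖z (s + h) - z s‖ ^ 2 ≤
        2 / ν * ‖F (s + h) - F s‖ ^ 2 +
          14 * c ^ 4 / ν ^ 3 * (‖u (s + h) - u s‖ ^ 2 * ‖z s‖ ^ 4) := by
  obtain ⟨Z, St1⟩ := toSt hF S
  have hw := St1.deriv_weak Fr hT
  rw [ae_restrict_iff' measurableSet_Ioc] at hw ⊢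
  have hw2 := (quasiMeasurePreserving_add_right volume h).ae hw
  filter_upwards [hw, hw2] with s k1 k2 hs
  have hs1 : s ∈ Ioc 0 T := ⟨hs.1, by linarith [hs.2]⟩
  have hs2 : s + h ∈ Ioc 0 T := ⟨by linarith [hs.1], by linarith [hs.2]⟩
  have hsI := Ioc_subset_Icc_self hs1
  have hsI2 := Ioc_subset_Icc_self hs2
  have hW : (u (s + h) - u s, z (s + h) - z s) ∈ W := W.sub_mem (S.mem _ hsI2) (S.mem _ hsI)
  have e1 := k1 hs1 _ hW
  have e2 := k2 hs2 _ hW
  have e3 := Fr.anti _ (S.mem _ hsI2) _ (S.mem _ hsI)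
  simp only at e1 e2 e3
  have e4 : ⟪u1 (s + h) - u1 s, u (s + h) - u s⟫_ℝ =
      ⟪F (s + h) - F s, z (s + h) - z s⟫_ℝ - ν * ‖z (s + h) - z s‖ ^ 2 -
        ⟪m (u (s + h) - u s), z s⟫_ℝ := by
    rw [inner_sub_left, e1, e2, ← inner_sub_left]
    have e5 : F (s + h) - ν • z (s + h) + m (u (s + h)) - (F s - ν • z s + m (u s)) =
        (F (s + h) - F s) - ν • (z (s + h) - z s) + (m (u (s + h)) - m (u s)) := by
      rw [smul_sub]; abel
    rw [e5, inner_add_left, inner_sub_left, inner_smul_left, real_inner_self_eq_norm_sq, e3]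
    simp
    ring
  have hq := U.quart _ hW
  simp only at hq
  have hx : |⟪F (s + h) - F s, z (s + h) - z s⟫_ℝ| ≤ ‖F (s + h) - F s‖ *
      (Real.sqrt ‖z (s + h) - z s‖) ^ 2 := by
    rw [Real.sq_sqrt (norm_nonneg _)]
    exact abs_real_inner_le_norm _ _
  have hI : |⟪m (u (s + h) - u s), z s⟫_ℝ| ≤ c * (Real.sqrt ‖u (s + h) - u s‖ *
      (Real.sqrt ‖z (s + h) - z s‖) ^ 3) * ‖z s‖ :=
    (abs_real_inner_le_norm _ _).trans (mul_le_mul_of_nonneg_right hq (norm_nonneg _))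
  have := young ν c (Real.sqrt ‖u (s + h) - u s‖) (Real.sqrt ‖z (s + h) - z s‖) ‖z s‖
    ‖F (s + h) - F s‖ _ hν U.c0.le (Real.sqrt_nonneg _) (Real.sqrt_nonneg _) (norm_nonneg _) _ hI hx
  rw [Real.sq_sqrt (norm_nonneg _), Real.sq_sqrt (norm_nonneg _)] at this
  rw [e4]
  exact this

/-- the inequality for the differences -/
theorem diff_ineq (Fr : Frame W m C) (U : Univ W m c) (hν : 0 < ν) (hT : 0 < T) (hF : FH T F F1)
    (S : Str W m ν T F u u1 z z1) {h r t : ℝ} (hh : 0 < h) (hr : 0 ≤ r) (hrt : r < t)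
    (hth : t + h ≤ T) :
    ‖u (t + h) - u t‖ ^ 2 - ‖u (r + h) - u r‖ ^ 2 + ν * ∫ s in r..t, ‖z (s + h) - z s‖ ^ 2 ≤
      2 / ν * ((∫ s in r..(t + h), ‖F1 s‖ ^ 2) * h ^ 2) +
        14 * c ^ 4 / ν ^ 3 * ∫ s in r..t, ‖u (s + h) - u s‖ ^ 2 * ‖z s‖ ^ 4 := by
  have hThh : t ≤ T - h := by linarith
  have hg1 : MemLp (fun s => u1 (s + h) - u1 s) 2 (volume.restrict (Ioc 0 (T - h))) := by
    have hmp : MeasurePreserving (fun s : ℝ => s + h) (volume.restrict (Ioc 0 (T - h)))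
        (volume.restrict (Ioc h T)) := by
      have := (measurePreserving_add_right volume h).restrict_preimage
        (measurableSet_Ioc : MeasurableSet (Ioc h T))
      rwa [preimage_add_const_Ioc, sub_self] at this
    exact ((S.u1m.mono_measure (Measure.restrict_mono (Ioc_subset_Ioc_left hh.le)
      le_rfl)).comp_measurePreserving hmp).sub
      (S.u1m.mono_measure (Measure.restrict_mono (Ioc_subset_Ioc_right (by linarith)) le_rfl))
  have hu1i : Integrable u1 (volume.restrict (Ioc 0 T)) := S.u1m.integrable (by norm_num)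
  have hgp : ∀ a b, 0 ≤ a → a ≤ b → b ≤ T - h → (u (b + h) - u b) - (u (a + h) - u a) =
      ∫ s in a..b, (u1 (s + h) - u1 s) := by
    intro a b ha hab hb
    have i1 : IntervalIntegrable u1 volume a b := ii_of_int hu1i ha hab (by linarith)
    have i2 : IntervalIntegrable (fun s => u1 (s + h)) volume a b := by
      have := (ii_of_int hu1i (by linarith : 0 ≤ a + h) (by linarith) (by linarith :
        b + h ≤ T)).comp_add_right h
      simpa using this
    rw [intervalIntegral.integral_sub i2 i1, intervalIntegral.integral_comp_add_right (fun s => u1 s),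
      ← S.pu a b ha hab (by linarith), ← S.pu (a + h) (b + h) (by linarith) (by linarith)
      (by linarith)]
    abel
  have e1 := sq_prim hg1 hgp hr hrt.le hThh
  have hzc : ContinuousOn z (Icc 0 T) := prim_cont S.z1m S.pz
  have huc : ContinuousOn u (Icc 0 T) := prim_cont S.u1m S.pu
  have hFc : ContinuousOn F (Icc 0 T) := prim_cont hF.memLp hF.prim
  have hs0 : uIcc r t ⊆ Icc 0 T := by
    rw [uIcc_of_le hrt.le]; exact Icc_subset_Icc hr (by linarith)
  have hs1 : MapsTo (fun s => s + h) (uIcc r t) (Icc 0 T) := by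
    rw [uIcc_of_le hrt.le]
    exact fun s hs => ⟨by linarith [hs.1], by linarith [hs.2]⟩
  have hZi : IntervalIntegrable (fun s => ‖z (s + h) - z s‖ ^ 2) volume r t :=
    ContinuousOn.intervalIntegrable ((((hzc.comp (by fun_prop) hs1).sub (hzc.mono hs0)).norm).pow 2)
  have hEi : IntervalIntegrable (fun s => ‖F (s + h) - F s‖ ^ 2) volume r t :=
    ContinuousOn.intervalIntegrable ((((hFc.comp (by fun_prop) hs1).sub (hFc.mono hs0)).norm).pow 2)
  have hDi : IntervalIntegrable (fun s => ‖u (s + h) - u s‖ ^ 2 * ‖z s‖ ^ 4) volume r t :=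
    ContinuousOn.intervalIntegrable (((((huc.comp (by fun_prop) hs1).sub (huc.mono hs0)).norm).pow 2).mul
      ((hzc.mono hs0).norm.pow 4))
  have hgc := prim_cont hg1 hgp
  have hIi : IntervalIntegrable (fun s => 2 * ⟪u1 (s + h) - u1 s, u (s + h) - u s⟫_ℝ) volume r t := by
    refine (ii_of_int (T := T - h) (int_inner hg1 (by
        obtain ⟨B, hB⟩ := (isCompact_Icc.image_of_continuousOn hgc).isBounded.exists_norm_le
        refine MemLp.of_bound ((hgc.mono Ioc_subset_Icc_self).aestronglyMeasurable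
          measurableSet_Ioc) B ?_
        filter_upwards [ae_restrict_mem measurableSet_Ioc] with s hs
        exact hB _ ⟨s, Ioc_subset_Icc_self hs, rfl⟩)) hr hrt.le hThh).const_mul 2
  have e2 : ∫ s in r..t, (2 * ⟪u1 (s + h) - u1 s, u (s + h) - u s⟫_ℝ + ν * ‖z (s + h) - z s‖ ^ 2) ≤
      ∫ s in r..t, (2 / ν * ‖F (s + h) - F s‖ ^ 2 +
          14 * c ^ 4 / ν ^ 3 * (‖u (s + h) - u s‖ ^ 2 * ‖z s‖ ^ 4)) := by
    refine intervalIntegral.integral_mono_ae_restrict hrt.le (hIi.add (hZi.const_mul ν))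
      ((hEi.const_mul _).add (hDi.const_mul _)) ?_
    have := ae_mono (Measure.restrict_mono (Ioc_subset_Ioc hr hThh) le_rfl)
      (pt_ineq Fr U hν hT hF S hh)
    rw [Filter.EventuallyLE, ← restrict_Ioc_eq_restrict_Icc]
    filter_upwards [this] with s hs
    exact hs
  rw [intervalIntegral.integral_add hIi (hZi.const_mul ν),
    intervalIntegral.integral_add (hEi.const_mul _) (hDi.const_mul _),
    intervalIntegral.integral_const_mul ν, intervalIntegral.integral_const_mul (2 / ν),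
    intervalIntegral.integral_const_mul (14 * c ^ 4 / ν ^ 3), ← e1] at e2
  have e3 := prim_shift' hF.memLp hF.prim hr hrt hh hth
  have e4 := mul_le_mul_of_nonneg_left e3 (by positivity : 0 ≤ 2 / ν)
  linarith

/-- the inequality for the derivatives, at good times -/
theorem lim_ineq (Fr : Frame W m C) (U : Univ W m c) (hν : 0 < ν) (hT : 0 < T) (hF : FH T F F1)
    (S : Str W m ν T F u u1 z z1) {r t : ℝ} (hr : 0 ≤ r) (hrt : r < t) (htT : t < T)
    (dr : HasDerivAt u (u1 r) r) (dt : HasDerivAt u (u1 t) t) :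
    ‖u1 t‖ ^ 2 - ‖u1 r‖ ^ 2 + ν * ∫ s in r..t, ‖z1 s‖ ^ 2 ≤
      2 / ν * (∫ s in r..t, ‖F1 s‖ ^ 2) +
        14 * c ^ 4 / ν ^ 3 * ∫ s in r..t, ‖u1 s‖ ^ 2 * ‖z s‖ ^ 4 := by
  set h : ℕ → ℝ := fun n => (T - t) / (n + 1) with hh
  have hTt : 0 < T - t := by linarith
  have hpos : ∀ n, 0 < h n := fun n => by rw [hh]; positivity
  have hle : ∀ n, t + h n ≤ T := by
    intro n
    have : h n ≤ T - t := by
      rw [hh]
      refine div_le_self hTt.le ?_
      have : (0 : ℝ) ≤ n := Nat.cast_nonneg n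
      linarith
    linarith
  have hlim0 : Tendsto h atTop (𝓝 0) := by
    have := (tendsto_one_div_add_atTop_nhds_zero_nat (𝕜 := ℝ)).const_mul (T - t)
    rw [mul_zero] at this
    refine this.congr fun n => ?_
    rw [hh]; ring
  have hlim : Tendsto h atTop (𝓝[>] 0) :=
    tendsto_nhdsWithin_iff.2 ⟨hlim0, Eventually.of_forall fun n => hpos n⟩
  have hz1i : Integrable z1 (volume.restrict (Ioc 0 T)) := S.z1m.integrable (by norm_num)
  have hu1i : Integrable u1 (volume.restrict (Ioc 0 T)) := S.u1m.integrable (by norm_num)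
  have hzc : ContinuousOn z (Icc 0 T) := prim_cont S.z1m S.pz
  have huc : ContinuousOn u (Icc 0 T) := prim_cont S.u1m S.pu
  have hF2 : Integrable (fun s => ‖F1 s‖ ^ 2) (volume.restrict (Ioc 0 T)) :=
    (memLp_two_iff_integrable_sq_norm hF.memLp.aestronglyMeasurable).mp hF.memLp
  have hz2 : Integrable (fun s => ‖z1 s‖ ^ 2) (volume.restrict (Ioc 0 T)) :=
    (memLp_two_iff_integrable_sq_norm S.z1m.aestronglyMeasurable).mp S.z1m
  -- the derivatives
  have hdt : Tendsto (fun n => ‖(h n)⁻¹ • (u (t + h n) - u t)‖ ^ 2) atTop (𝓝 (‖u1 t‖ ^ 2)) :=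
    ((dt.tendsto_slope_zero_right.comp hlim).norm).pow 2
  have hdr : Tendsto (fun n => ‖(h n)⁻¹ • (u (r + h n) - u r)‖ ^ 2) atTop (𝓝 (‖u1 r‖ ^ 2)) :=
    ((dr.tendsto_slope_zero_right.comp hlim).norm).pow 2
  have hsub : (volume.restrict (Ioc r t) : Measure ℝ) ≤ volume.restrict (Ioc 0 T) :=
    Measure.restrict_mono (Ioc_subset_Ioc hr htT.le) le_rfl
  have hdz : ∀ᵐ s ∂(volume.restrict (Ioc r t)),
      Tendsto (fun n => ν * ‖(h n)⁻¹ • (z (s + h n) - z s)‖ ^ 2) atTop (𝓝 (ν * ‖z1 s‖ ^ 2)) := by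
    filter_upwards [ae_mono hsub (ae_deriv_of_prim hT (memLp_ii hT.le S.z1m) S.pz)] with s hs
    exact (((hs.tendsto_slope_zero_right.comp hlim).norm).pow 2).const_mul ν
  have hdu : ∀ᵐ s ∂(volume.restrict (Ioc r t)),
      Tendsto (fun n => ‖(h n)⁻¹ • (u (s + h n) - u s)‖ ^ 2 * ‖z s‖ ^ 4) atTop
        (𝓝 (‖u1 s‖ ^ 2 * ‖z s‖ ^ 4)) := by
    filter_upwards [ae_mono hsub (ae_deriv_of_prim hT (memLp_ii hT.le S.u1m) S.pu)] with s hs
    exact (((hs.tendsto_slope_zero_right.comp hlim).norm).pow 2).mul_const _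
  -- bounds
  obtain ⟨c1, hc1⟩ := S.bd
  obtain ⟨Z, hZ⟩ : ∃ Z, ∀ s ∈ Icc 0 T, ‖z s‖ ≤ Z := by
    obtain ⟨Z, hZ⟩ := (isCompact_Icc.image_of_continuousOn hzc).isBounded.exists_norm_le
    exact ⟨Z, fun s hs => hZ _ ⟨s, hs, rfl⟩⟩
  have hsI : ∀ n, ∀ s ∈ Ioc r t, s ∈ Icc 0 T ∧ s + h n ∈ Icc 0 T := by
    intro n s hs
    have := hpos n
    have := hle n
    exact ⟨⟨by linarith [hs.1], by linarith [hs.2]⟩, ⟨by linarith [hs.1], by linarith [hs.2]⟩⟩
  have hcont : ∀ n, ContinuousOn (fun s => s + h n) (uIcc r t) := fun n => by fun_prop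
  have hs0 : uIcc r t ⊆ Icc 0 T := by
    rw [uIcc_of_le hrt.le]; exact Icc_subset_Icc hr (by linarith)
  have hs1 : ∀ n, MapsTo (fun s => s + h n) (uIcc r t) (Icc 0 T) := by
    intro n
    have := hpos n
    have := hle n
    rw [uIcc_of_le hrt.le]
    exact fun s hs => ⟨by linarith [hs.1], by linarith [hs.2]⟩
  have hZi : ∀ n, IntervalIntegrable (fun s => ν * ‖(h n)⁻¹ • (z (s + h n) - z s)‖ ^ 2)
      volume r t := fun n => ContinuousOn.intervalIntegrable
    (continuousOn_const.mul ((((continuousOn_const.smul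
      ((hzc.comp (hcont n) (hs1 n)).sub (hzc.mono hs0)))).norm).pow 2))
  have hDc : ∀ n, ContinuousOn (fun s => ‖(h n)⁻¹ • (u (s + h n) - u s)‖ ^ 2 * ‖z s‖ ^ 4)
      (uIcc r t) := fun n => ((((continuousOn_const.smul
      ((huc.comp (hcont n) (hs1 n)).sub (huc.mono hs0)))).norm).pow 2).mul
      ((hzc.mono hs0).norm.pow 4)
  have hlimD : Tendsto (fun n => ∫ s in r..t, ‖(h n)⁻¹ • (u (s + h n) - u s)‖ ^ 2 * ‖z s‖ ^ 4) atTop
      (𝓝 (∫ s in r..t, ‖u1 s‖ ^ 2 * ‖z s‖ ^ 4)) := by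
    refine intervalIntegral.tendsto_integral_filter_of_dominated_convergence
      (fun _ => (max c1 0) ^ 2 * Z ^ 4) ?_ ?_ intervalIntegrable_const ?_
    · refine Eventually.of_forall fun n => ?_
      rw [uIoc_of_le hrt.le]
      have := (hDc n)
      rw [uIcc_of_le hrt.le] at this
      exact (this.mono Ioc_subset_Icc_self).aestronglyMeasurable measurableSet_Ioc
    · refine Eventually.of_forall fun n => Eventually.of_forall fun s hs => ?_
      rw [uIoc_of_le hrt.le] at hs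
      obtain ⟨k1, k2⟩ := hsI n s hs
      have k3 : ‖u (s + h n) - u s‖ ≤ max c1 0 * h n := by
        rw [S.pu s (s + h n) k1.1 (by linarith [hpos n]) k2.2]
        have k4 := intervalIntegral.norm_integral_le_of_norm_le_const_ae (f := u1) (a := s)
          (b := s + h n) (C := max c1 0) (by
            rw [ae_restrict_iff' measurableSet_Ioc] at hc1
            filter_upwards [hc1] with x hx hx2
            rw [uIoc_of_le (by linarith [hpos n])] at hx2
            exact (hx ⟨by linarith [hx2.1, k1.1], by linarith [hx2.2, k2.2]⟩).trans (le_max_left _ _))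
        rwa [add_sub_cancel_left, abs_of_pos (hpos n)] at k4
      have k5 : ‖(h n)⁻¹ • (u (s + h n) - u s)‖ ≤ max c1 0 := by
        rw [norm_smul, norm_inv, Real.norm_eq_abs, abs_of_pos (hpos n), inv_mul_le_iff₀ (hpos n),
          mul_comm]
        exact k3
      rw [Real.norm_of_nonneg (by positivity)]
      have k6 := hZ s k1
      gcongr
    · rw [← ae_restrict_iff' measurableSet_uIoc, uIoc_of_le hrt.le]
      exact hdu
  have hlimF : Tendsto (fun n => ∫ s in r..(t + h n), ‖F1 s‖ ^ 2) atTop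
      (𝓝 (∫ s in r..t, ‖F1 s‖ ^ 2)) := by
    have hi : IntegrableOn (fun s => ‖F1 s‖ ^ 2) (uIcc r T) volume := by
      rw [uIcc_of_le (hrt.le.trans htT.le), integrableOn_Icc_iff_integrableOn_Ioc]
      exact hF2.mono_measure (Measure.restrict_mono (Ioc_subset_Ioc_left hr) le_rfl)
    have hc := intervalIntegral.continuousOn_primitive_interval hi
    rw [uIcc_of_le (hrt.le.trans htT.le)] at hc
    have h1 := hc t ⟨hrt.le, htT.le⟩
    have h2 : Tendsto (fun n => t + h n) atTop (𝓝[Icc r T] t) := by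
      refine tendsto_nhdsWithin_iff.2 ⟨?_, Eventually.of_forall fun n => ⟨?_, hle n⟩⟩
      · simpa using hlim0.const_add t
      · linarith [hpos n]
    exact h1.tendsto.comp h2
  -- the inequality for the quotients
  have hineq : ∀ n, ∫ s in Ioc r t, ν * ‖(h n)⁻¹ • (z (s + h n) - z s)‖ ^ 2 ≤
      2 / ν * (∫ s in r..(t + h n), ‖F1 s‖ ^ 2) + 14 * c ^ 4 / ν ^ 3 *
        (∫ s in r..t, ‖(h n)⁻¹ • (u (s + h n) - u s)‖ ^ 2 * ‖z s‖ ^ 4) -
        ‖(h n)⁻¹ • (u (t + h n) - u t)‖ ^ 2 + ‖(h n)⁻¹ • (u (r + h n) - u r)‖ ^ 2 := by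
    intro n
    have hn := hpos n
    have e0 : ∀ {Y : Type} [NormedAddCommGroup Y] [InnerProductSpace ℝ Y] (x : Y),
        ‖(h n)⁻¹ • x‖ ^ 2 = ((h n) ^ 2)⁻¹ * ‖x‖ ^ 2 := by
      intro Y _ _ x
      rw [norm_smul, norm_inv, Real.norm_eq_abs, abs_of_pos hn, mul_pow, inv_pow]
    have e1 := diff_ineq Fr U hν hT hF S hn hr hrt (hle n)
    rw [← intervalIntegral.integral_of_le hrt.le]
    simp only [e0]
    have e2 : ∫ s in r..t, ν * (((h n) ^ 2)⁻¹ * ‖z (s + h n) - z s‖ ^ 2) =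
        ((h n) ^ 2)⁻¹ * (ν * ∫ s in r..t, ‖z (s + h n) - z s‖ ^ 2) := by
      rw [← intervalIntegral.integral_const_mul, ← intervalIntegral.integral_const_mul]
      exact intervalIntegral.integral_congr fun s _ => by ring
    have e3 : ∫ s in r..t, (((h n) ^ 2)⁻¹ * ‖u (s + h n) - u s‖ ^ 2) * ‖z s‖ ^ 4 =
        ((h n) ^ 2)⁻¹ * ∫ s in r..t, ‖u (s + h n) - u s‖ ^ 2 * ‖z s‖ ^ 4 := by
      rw [← intervalIntegral.integral_const_mul]
      exact intervalIntegral.integral_congr fun s _ => by ring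
    rw [e2, e3]
    have e4 := mul_le_mul_of_nonneg_left e1 (by positivity : 0 ≤ ((h n) ^ 2)⁻¹)
    have e5 : ((h n) ^ 2)⁻¹ * (2 / ν * ((∫ s in r..(t + h n), ‖F1 s‖ ^ 2) * (h n) ^ 2)) =
        2 / ν * (∫ s in r..(t + h n), ‖F1 s‖ ^ 2) := by
      field_simp
    rw [mul_add, mul_sub, mul_add, e5] at e4
    have e6 : ((h n) ^ 2)⁻¹ * (14 * c ^ 4 / ν ^ 3 *
        ∫ s in r..t, ‖u (s + h n) - u s‖ ^ 2 * ‖z s‖ ^ 4) = 14 * c ^ 4 / ν ^ 3 *
        (((h n) ^ 2)⁻¹ * ∫ s in r..t, ‖u (s + h n) - u s‖ ^ 2 * ‖z s‖ ^ 4) := by ring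
    rw [e6] at e4
    linarith
  have hB := (((hlimF.const_mul (2 / ν)).add (hlimD.const_mul (14 * c ^ 4 / ν ^ 3))).sub
    hdt).add hdr
  have hfin := fatou (μ := volume.restrict (Ioc r t))
    (f := fun n s => ν * ‖(h n)⁻¹ • (z (s + h n) - z s)‖ ^ 2) (g := fun s => ν * ‖z1 s‖ ^ 2)
    (fun n => Eventually.of_forall fun s => by positivity)
    (fun n => by
      have := hZi n
      rwa [intervalIntegrable_iff_integrableOn_Ioc_of_le hrt.le] at this)
    hdz ((hz2.mono_measure hsub).const_mul ν) hineq hB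
  rw [integral_const_mul, ← intervalIntegral.integral_of_le hrt.le] at hfin
  linarith

end eqn

/-- TQD-EST2 -/
theorem proof_est2 : S_est2 := by
  intro H K _ _ _ _ _ _ W m C c ν T F F1 u u1 z z1 Fr U hν hT hF S t0 ht0
  have hzc : ContinuousOn z (Icc 0 T) := prim_cont S.z1m S.pz
  have hF2 : Integrable (fun s => ‖F1 s‖ ^ 2) (volume.restrict (Ioc 0 T)) :=
    (memLp_two_iff_integrable_sq_norm hF.memLp.aestronglyMeasurable).mp hF.memLp
  have hz2 : Integrable (fun s => ‖z1 s‖ ^ 2) (volume.restrict (Ioc 0 T)) :=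
    (memLp_two_iff_integrable_sq_norm S.z1m.aestronglyMeasurable).mp S.z1m
  have hu2 : Integrable (fun s => ‖u1 s‖ ^ 2) (volume.restrict (Ioc 0 T)) :=
    (memLp_two_iff_integrable_sq_norm S.u1m.aestronglyMeasurable).mp S.u1m
  obtain ⟨Z, hZ⟩ : ∃ Z, ∀ s ∈ Icc 0 T, ‖z s‖ ≤ Z := by
    obtain ⟨Z, hZ⟩ := (isCompact_Icc.image_of_continuousOn hzc).isBounded.exists_norm_le
    exact ⟨Z, fun s hs => hZ _ ⟨s, hs, rfl⟩⟩
  have hw2 : Integrable (fun s => ‖u1 s‖ ^ 2 * ‖z s‖ ^ 4) (volume.restrict (Ioc 0 T)) := by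
    refine (hu2.mul_const (Z ^ 4)).mono' ?_ ?_
    · exact hu2.aestronglyMeasurable.mul
        (((hzc.mono Ioc_subset_Icc_self).norm.pow 4).aestronglyMeasurable measurableSet_Ioc)
    · filter_upwards [ae_restrict_mem measurableSet_Ioc] with s hs
      rw [Real.norm_of_nonneg (by positivity)]
      have := hZ s (Ioc_subset_Icc_self hs)
      gcongr
  have hG := ae_deriv_of_prim hT (memLp_ii hT.le S.u1m) S.pu
  have hne : ∀ᵐ s : ℝ ∂(volume.restrict (Ioc t0 T)), s ≠ T := by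
    refine ae_restrict_of_ae ?_
    simp [ae_iff, measure_singleton]
  filter_upwards [ae_mono (Measure.restrict_mono (Ioc_subset_Ioc_left ht0.1) le_rfl) hG,
    ae_restrict_mem measurableSet_Ioc, hne] with t dt ht htne
  have htT : t < T := lt_of_le_of_ne ht.2 htne
  have h0t : t0 < t := ht.1
  set K1 : ℝ := 14 * c ^ 4 / ν ^ 3 with hK1
  set f : ℝ → ℝ := fun s => 2 / ν * ‖F1 s‖ ^ 2 + K1 * (‖u1 s‖ ^ 2 * ‖z s‖ ^ 4) - ν * ‖z1 s‖ ^ 2
    with hf
  have hfi : Integrable f (volume.restrict (Ioc 0 T)) :=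
    ((hF2.const_mul _).add (hw2.const_mul _)).sub (hz2.const_mul _)
  have hsplit : ∀ r, 0 ≤ r → r ≤ t → ∫ s in r..t, f s = 2 / ν * (∫ s in r..t, ‖F1 s‖ ^ 2) +
      K1 * (∫ s in r..t, ‖u1 s‖ ^ 2 * ‖z s‖ ^ 4) - ν * ∫ s in r..t, ‖z1 s‖ ^ 2 := by
    intro r hr hrt
    have i1 := (ii_of_int hF2 hr hrt htT.le).const_mul (2 / ν)
    have i2 := (ii_of_int hw2 hr hrt htT.le).const_mul K1
    have i3 := (ii_of_int hz2 hr hrt htT.le).const_mul ν
    rw [hf, intervalIntegral.integral_sub (i1.add i2) i3, intervalIntegral.integral_add i1 i2,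
      intervalIntegral.integral_const_mul, intervalIntegral.integral_const_mul,
      intervalIntegral.integral_const_mul]
  -- integrate over `r`
  have hPi : IntervalIntegrable (fun r => ∫ s in r..t, f s) volume t0 t := by
    have hi : IntegrableOn f (uIcc 0 T) volume := by
      rw [uIcc_of_le hT.le, integrableOn_Icc_iff_integrableOn_Ioc]
      exact hfi
    have h1 := intervalIntegral.continuousOn_primitive_interval hi
    rw [uIcc_of_le hT.le] at h1
    have h2 : ContinuousOn (fun r => (∫ s in (0 : ℝ)..t, f s) - ∫ s in (0 : ℝ)..r, f s)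
        (uIcc t0 t) := by
      rw [uIcc_of_le h0t.le]
      exact continuousOn_const.sub (h1.mono (Icc_subset_Icc ht0.1 htT.le))
    refine (h2.congr ?_).intervalIntegrable
    intro r hr
    rw [uIcc_of_le h0t.le] at hr
    have := intervalIntegral.integral_add_adjacent_intervals
      (ii_of_int hfi le_rfl (ht0.1.trans hr.1) (hr.2.trans htT.le))
      (ii_of_int hfi (ht0.1.trans hr.1) hr.2 htT.le)
    simp only
    linarith
  have hui : IntervalIntegrable (fun s => ‖u1 s‖ ^ 2) volume t0 t :=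
    ii_of_int hu2 ht0.1 h0t.le htT.le
  have hmono : ∫ r in t0..t, ‖u1 t‖ ^ 2 ≤ ∫ r in t0..t, (‖u1 r‖ ^ 2 + ∫ s in r..t, f s) := by
    refine intervalIntegral.integral_mono_ae_restrict h0t.le intervalIntegrable_const
      (hui.add hPi) ?_
    rw [Filter.EventuallyLE, ← restrict_Ioc_eq_restrict_Icc]
    have hne2 : ∀ᵐ s : ℝ ∂(volume.restrict (Ioc t0 t)), s ≠ t := by
      refine ae_restrict_of_ae ?_
      simp [ae_iff, measure_singleton]
    filter_upwards [ae_mono (Measure.restrict_mono (Ioc_subset_Ioc ht0.1 htT.le) le_rfl) hG,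
      ae_restrict_mem measurableSet_Ioc, hne2] with r dr hr hrne
    have hrt : r < t := lt_of_le_of_ne hr.2 hrne
    have hr0 : 0 ≤ r := ht0.1.trans hr.1.le
    have := lim_ineq Fr U hν hT hF S hr0 hrt htT dr dt
    rw [hsplit r hr0 hrt.le]
    linarith
  rw [intervalIntegral.integral_const, smul_eq_mul, intervalIntegral.integral_add hui hPi,
    dbl hfi ht0.1 h0t.le htT.le] at hmono
  have hwt : ∫ s in t0..t, (s - t0) * f s = 2 / ν * (∫ s in t0..t, (s - t0) * ‖F1 s‖ ^ 2) +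
      K1 * (∫ s in t0..t, (s - t0) * (‖u1 s‖ ^ 2 * ‖z s‖ ^ 4)) -
      ν * ∫ s in t0..t, (s - t0) * ‖z1 s‖ ^ 2 := by
    have hcw : ContinuousOn (fun s : ℝ => s - t0) (uIcc t0 t) := by fun_prop
    have i1 := ((ii_of_int hF2 ht0.1 h0t.le htT.le).continuousOn_mul hcw).const_mul (2 / ν)
    have i2 := ((ii_of_int hw2 ht0.1 h0t.le htT.le).continuousOn_mul hcw).const_mul K1
    have i3 := ((ii_of_int hz2 ht0.1 h0t.le htT.le).continuousOn_mul hcw).const_mul ν
    rw [← intervalIntegral.integral_const_mul, ← intervalIntegral.integral_const_mul,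
      ← intervalIntegral.integral_const_mul, ← intervalIntegral.integral_add i1 i2,
      ← intervalIntegral.integral_sub (i1.add i2) i3]
    exact intervalIntegral.integral_congr fun s _ => by rw [hf]; ring
  have hFw : ∫ s in t0..t, (s - t0) * ‖F1 s‖ ^ 2 ≤ (T - t0) * ∫ s in t0..T, ‖F1 s‖ ^ 2 := by
    have hcw : ContinuousOn (fun s : ℝ => s - t0) (uIcc t0 t) := by fun_prop
    have i0 := ii_of_int hF2 ht0.1 h0t.le htT.le
    have i4 := ii_of_int hF2 (ht0.1.trans h0t.le) htT.le le_rfl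
    have k1 : ∫ s in t0..t, (s - t0) * ‖F1 s‖ ^ 2 ≤ ∫ s in t0..t, (T - t0) * ‖F1 s‖ ^ 2 := by
      refine intervalIntegral.integral_mono_on h0t.le (i0.continuousOn_mul hcw) (i0.const_mul _) ?_
      intro s hs
      apply mul_le_mul_of_nonneg_right _ (by positivity)
      linarith [hs.2]
    rw [intervalIntegral.integral_const_mul] at k1
    have k2 : ∫ s in t0..t, ‖F1 s‖ ^ 2 ≤ ∫ s in t0..T, ‖F1 s‖ ^ 2 := by
      have := intervalIntegral.integral_add_adjacent_intervals i0 i4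
      have k3 : 0 ≤ ∫ s in t..T, ‖F1 s‖ ^ 2 :=
        intervalIntegral.integral_nonneg htT.le fun s _ => by positivity
      linarith
    exact k1.trans (mul_le_mul_of_nonneg_left k2 (by linarith [ht0.2]))
  have h9 := mul_le_mul_of_nonneg_left hFw (by positivity : 0 ≤ 2 / ν)
  rw [hwt] at hmono
  linarith

end Pool.Agent.W790.TQ
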